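import Pool.Agent.H64.Brk8

namespace Pool.Agent.Results.MP_0e398f_al.AllFields

universe u

/-- A brachymorphism between (associative, unital) rings. -/
def IsBrachymorphism {R S : Type u} [Ring R] [Ring S] (f : R → S) : Prop :=
  (∀ a, f (1 + a) = 1 + f a) ∧ ∀ a b, f (a * b) = f a * f b

/-- For every field `k` there is a brachymorphism `f : k⟨x,y⟩ → k` with `f x = f y = 0` and
`f (x + y) = 1` (here `x`, `y` are the generators indexed by `true`, `false`). -/
theorem result (k : Type u) [Field k] : ∃ f : FreeAlgebra k Bool → k, IsBrachymorphism f ∧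
    f (FreeAlgebra.ι k true) = 0 ∧ f (FreeAlgebra.ι k false) = 0 ∧
    f (FreeAlgebra.ι k true + FreeAlgebra.ι k false) = 1 := by
  obtain ⟨f, h1, h2, h3⟩ := Pool.Agent.H64.Brk.main (k := k)
  exact ⟨f, ⟨h1, h2⟩, h3⟩

end Pool.Agent.Results.MP_0e398f_al.AllFields
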